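import Pool.Agent.V11232.LN.Def

namespace Pool.Agent.V11232.LN

open Nat.Partrec (Code)
open Nat.Partrec.Code

/-- `x` is enumerated into `W_e` within `s` steps. -/
def Wst (c : Code) (e x s : ℕ) : Prop := (evaln s c (Nat.pair e x)).isSome = true

theorem Wst_prim (c : Code) : PrimrecPred fun t : ℕ × ℕ × ℕ => Wst c t.1 t.2.1 t.2.2 := by
  unfold Wst
  refine Primrec.eq.comp ?_ (Primrec.const true)
  refine Primrec.option_isSome.comp ?_
  exact primrec_evaln.comp (Primrec.pair (Primrec.pair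
    (Primrec.snd.comp Primrec.snd) (Primrec.const c))
    (Primrec₂.natPair.comp Primrec.fst (Primrec.fst.comp Primrec.snd)))

/-- All elements of `P` are enumerated into `W_e` within `s` steps. -/
def inA (c : Code) (P : List ℕ) (e s : ℕ) : Prop := ∀ p ∈ P, Wst c e p s

theorem inA_prim (c : Code) : PrimrecPred fun t : List ℕ × ℕ × ℕ => inA c t.1 t.2.1 t.2.2 := by
  have h : PrimrecRel fun (p : ℕ) (t : ℕ × ℕ) => Wst c t.1 p t.2 :=
    (Wst_prim c).comp (f := fun q : ℕ × (ℕ × ℕ) => (q.2.1, q.1, q.2.2))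
      (Primrec.pair (Primrec.fst.comp Primrec.snd)
        (Primrec.pair Primrec.fst (Primrec.snd.comp Primrec.snd)))
  exact h.forall_mem_list.comp (f := fun t : List ℕ × ℕ × ℕ => t.1)
    (g := fun t => t.2) Primrec.fst Primrec.snd

/-- Stage-wise membership in the intersection. -/
def TT (c : Code) (P : List ℕ) (z s y : ℕ) : Prop :=
  ∀ e ∈ List.range (z + 1), inA c P e s → Wst c e y s

theorem TT_prim (c : Code) :
    PrimrecPred fun t : List ℕ × ℕ × ℕ × ℕ => TT c t.1 t.2.1 t.2.2.1 t.2.2.2 := by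
  have h1 : PrimrecPred fun q : ℕ × (List ℕ × ℕ × ℕ) => inA c q.2.1 q.1 q.2.2.1 :=
    (inA_prim c).comp (f := fun q : ℕ × (List ℕ × ℕ × ℕ) => (q.2.1, q.1, q.2.2.1))
      (Primrec.pair (Primrec.fst.comp Primrec.snd) (Primrec.pair Primrec.fst
        (Primrec.fst.comp (Primrec.snd.comp Primrec.snd))))
  have h2 : PrimrecPred fun q : ℕ × (List ℕ × ℕ × ℕ) => Wst c q.1 q.2.2.2 q.2.2.1 :=
    (Wst_prim c).comp (f := fun q : ℕ × (List ℕ × ℕ × ℕ) => (q.1, q.2.2.2, q.2.2.1))
      (Primrec.pair Primrec.fst (Primrec.pair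
        (Primrec.snd.comp (Primrec.snd.comp Primrec.snd))
        (Primrec.fst.comp (Primrec.snd.comp Primrec.snd))))
  have h : PrimrecRel fun (e : ℕ) (t : List ℕ × ℕ × ℕ) =>
      inA c t.1 e t.2.1 → Wst c e t.2.2 t.2.1 :=
    (h1.not.or h2).of_eq (fun q => by tauto)
  exact h.forall_mem_list.comp
    (f := fun t : List ℕ × ℕ × ℕ × ℕ => List.range (t.2.1 + 1))
    (g := fun t => (t.1, t.2.2.1, t.2.2.2))
    (Primrec.list_range.comp (Primrec.succ.comp (Primrec.fst.comp Primrec.snd)))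
    (Primrec.pair Primrec.fst (Primrec.pair (Primrec.fst.comp (Primrec.snd.comp Primrec.snd))
      (Primrec.snd.comp (Primrec.snd.comp Primrec.snd))))

/-- Stage-wise consistency. -/
def cons (c : Code) (P Q : List ℕ) (z s : ℕ) : Prop := ∀ q ∈ Q, ¬ TT c P z s q

theorem cons_prim (c : Code) :
    PrimrecPred fun t : (List ℕ × List ℕ) × ℕ × ℕ => cons c t.1.1 t.1.2 t.2.1 t.2.2 := by
  have h : PrimrecRel fun (q : ℕ) (t : List ℕ × ℕ × ℕ) => ¬ TT c t.1 t.2.1 t.2.2 q :=
    ((TT_prim c).comp (f := fun q : ℕ × (List ℕ × ℕ × ℕ) => (q.2.1, q.2.2.1, q.2.2.2, q.1))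
      (Primrec.pair (Primrec.fst.comp Primrec.snd)
        (Primrec.pair (Primrec.fst.comp (Primrec.snd.comp Primrec.snd))
          (Primrec.pair (Primrec.snd.comp (Primrec.snd.comp Primrec.snd)) Primrec.fst)))).not
  exact h.forall_mem_list.comp
    (f := fun t : (List ℕ × List ℕ) × ℕ × ℕ => t.1.2)
    (g := fun t => (t.1.1, t.2.1, t.2.2))
    (Primrec.snd.comp Primrec.fst)
    (Primrec.pair (Primrec.fst.comp Primrec.fst)
      (Primrec.pair (Primrec.fst.comp Primrec.snd) (Primrec.snd.comp Primrec.snd)))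

/-- Stage-wise selection of the least consistent index. -/
def sel (c : Code) (P Q : List ℕ) (z s : ℕ) : Prop :=
  cons c P Q z s ∧ ∀ z' ∈ Q, z' < z → ¬ cons c P Q z' s

theorem sel_prim (c : Code) :
    PrimrecPred fun t : (List ℕ × List ℕ) × ℕ × ℕ => sel c t.1.1 t.1.2 t.2.1 t.2.2 := by
  have h1 : PrimrecPred fun q : ℕ × ((List ℕ × List ℕ) × ℕ × ℕ) => q.1 < q.2.2.1 :=
    Primrec.nat_lt.comp Primrec.fst (Primrec.fst.comp (Primrec.snd.comp Primrec.snd))
  have h2 : PrimrecPred fun q : ℕ × ((List ℕ × List ℕ) × ℕ × ℕ) =>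
      cons c q.2.1.1 q.2.1.2 q.1 q.2.2.2 :=
    (cons_prim c).comp (f := fun q : ℕ × ((List ℕ × List ℕ) × ℕ × ℕ) =>
      (q.2.1, q.1, q.2.2.2)) (Primrec.pair (Primrec.fst.comp Primrec.snd)
        (Primrec.pair Primrec.fst (Primrec.snd.comp (Primrec.snd.comp Primrec.snd))))
  have h : PrimrecRel fun (z' : ℕ) (t : (List ℕ × List ℕ) × ℕ × ℕ) =>
      z' < t.2.1 → ¬ cons c t.1.1 t.1.2 z' t.2.2 :=
    (h1.not.or h2.not).of_eq (fun q => by tauto)
  have h3 : PrimrecPred fun t : (List ℕ × List ℕ) × ℕ × ℕ =>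
      ∀ z' ∈ t.1.2, z' < t.2.1 → ¬ cons c t.1.1 t.1.2 z' t.2.2 :=
    h.forall_mem_list.comp
      (f := fun t : (List ℕ × List ℕ) × ℕ × ℕ => t.1.2)
      (g := fun t => t) (Primrec.snd.comp Primrec.fst) Primrec.id
  exact ((cons_prim c).and h3).of_eq (fun t => Iff.rfl)

/-- Stage-wise output. -/
def VV (c : Code) (P Q : List ℕ) (s y : ℕ) : Prop := ∀ z ∈ Q, sel c P Q z s → TT c P z s y

theorem VV_prim (c : Code) :
    PrimrecPred fun t : (List ℕ × List ℕ) × ℕ × ℕ => VV c t.1.1 t.1.2 t.2.1 t.2.2 := by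
  have h1 : PrimrecPred fun q : ℕ × ((List ℕ × List ℕ) × ℕ × ℕ) =>
      sel c q.2.1.1 q.2.1.2 q.1 q.2.2.1 :=
    (sel_prim c).comp (f := fun q : ℕ × ((List ℕ × List ℕ) × ℕ × ℕ) =>
      (q.2.1, q.1, q.2.2.1)) (Primrec.pair (Primrec.fst.comp Primrec.snd)
        (Primrec.pair Primrec.fst (Primrec.fst.comp (Primrec.snd.comp Primrec.snd))))
  have h2 : PrimrecPred fun q : ℕ × ((List ℕ × List ℕ) × ℕ × ℕ) =>
      TT c q.2.1.1 q.1 q.2.2.1 q.2.2.2 :=
    (TT_prim c).comp (f := fun q : ℕ × ((List ℕ × List ℕ) × ℕ × ℕ) =>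
      (q.2.1.1, q.1, q.2.2.1, q.2.2.2)) (Primrec.pair (Primrec.fst.comp (Primrec.fst.comp Primrec.snd))
        (Primrec.pair Primrec.fst (Primrec.pair (Primrec.fst.comp (Primrec.snd.comp Primrec.snd))
          (Primrec.snd.comp (Primrec.snd.comp Primrec.snd)))))
  have h : PrimrecRel fun (z : ℕ) (t : (List ℕ × List ℕ) × ℕ × ℕ) =>
      sel c t.1.1 t.1.2 z t.2.1 → TT c t.1.1 z t.2.1 t.2.2 :=
    (h1.not.or h2).of_eq (fun q => by tauto)
  exact h.forall_mem_list.comp
      (f := fun t : (List ℕ × List ℕ) × ℕ × ℕ => t.1.2)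
      (g := fun t => t) (Primrec.snd.comp Primrec.fst) Primrec.id

/-- Positive data of a segment. -/
def pos (σ : List Item) : List ℕ :=
  σ.filterMap (fun o => o.bind (fun p => if p.2 = true then some p.1 else none))

/-- Negative data of a segment. -/
def neg (σ : List Item) : List ℕ :=
  σ.filterMap (fun o => o.bind (fun p => if p.2 = false then some p.1 else none))

theorem pos_prim : Primrec pos := by
  refine Primrec.listFilterMap Primrec.id ?_
  refine Primrec.option_bind Primrec.snd ?_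
  refine Primrec.ite ?_ ?_ (Primrec.const none)
  · exact Primrec.eq.comp (Primrec.snd.comp Primrec.snd) (Primrec.const true)
  · exact Primrec.option_some.comp (Primrec.fst.comp Primrec.snd)

theorem neg_prim : Primrec neg := by
  refine Primrec.listFilterMap Primrec.id ?_
  refine Primrec.option_bind Primrec.snd ?_
  refine Primrec.ite ?_ ?_ (Primrec.const none)
  · exact Primrec.eq.comp (Primrec.snd.comp Primrec.snd) (Primrec.const false)
  · exact Primrec.option_some.comp (Primrec.fst.comp Primrec.snd)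

/-- The set enumerated from a segment. -/
def Out (c : Code) (P Q : List ℕ) : Set ℕ := {y | ∃ s, y < s ∧ VV c P Q s y}

theorem exists_learner (φ : ℕ → ℕ →. ℕ) (hφ : Acceptable φ) (c : Code) :
    ∃ M : List Item → ℕ, Computable M ∧ ∀ σ, W φ (M σ) = Out c (pos σ) (neg σ) := by
  classical
  -- the decision procedure for one stage
  have hp : PrimrecPred fun t : (List Item × ℕ) × ℕ =>
      t.1.2 < t.2 ∧ VV c (pos t.1.1) (neg t.1.1) t.2 t.1.2 := by
    refine PrimrecPred.and ?_ ?_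
    · exact Primrec.nat_lt.comp (Primrec.snd.comp Primrec.fst) Primrec.snd
    · exact (VV_prim c).comp (f := fun t : (List Item × ℕ) × ℕ =>
        ((pos t.1.1, neg t.1.1), t.2, t.1.2))
        (Primrec.pair (Primrec.pair (pos_prim.comp (Primrec.fst.comp Primrec.fst))
          (neg_prim.comp (Primrec.fst.comp Primrec.fst)))
          (Primrec.pair Primrec.snd (Primrec.snd.comp Primrec.fst)))
  obtain ⟨_, hp⟩ := hp
  let g : List Item × ℕ → ℕ → Bool := fun t s =>
    decide (t.2 < s ∧ VV c (pos t.1) (neg t.1) s t.2)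
  have hg : Computable₂ g := by
    have h0 : Primrec₂ g := by
      refine Primrec.of_eq hp ?_
      intro t
      simp [g]
    exact h0.to_comp
  have hr : Partrec fun t : List Item × ℕ => Nat.rfind fun s => Part.some (g t s) :=
    Partrec.rfind hg.partrec₂
  let dec : ℕ → List Item := fun n => (Encodable.decode (α := List Item) n).getD []
  have hdec : Computable dec := Computable.option_getD Computable.decode (Computable.const [])
  have hψ : Partrec₂ fun (n y : ℕ) => Nat.rfind fun s => Part.some (g (dec n, y) s) :=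
    hr.comp (Computable.pair (hdec.comp Computable.fst) Computable.snd)
  obtain ⟨f, hf, hfe⟩ := hφ.2 _ hψ
  refine ⟨fun σ => f (Encodable.encode σ), hf.comp Computable.encode, fun σ => ?_⟩
  ext y
  change (φ (f (Encodable.encode σ)) y).Dom ↔ _
  rw [hfe]
  have e : dec (Encodable.encode σ) = σ := by simp [dec]
  rw [Nat.rfind_dom]
  simp only [e, Part.mem_some_iff, Part.some_dom, implies_true, and_true]
  constructor
  · rintro ⟨s, hs⟩
    exact ⟨s, by simpa [g] using hs.symm⟩
  · rintro ⟨s, hs⟩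
    exact ⟨s, by simpa [g] using hs⟩

end Pool.Agent.V11232.LN
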