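import Mathlib

/-!
Learning from positive data with finite open negative information.
-/

namespace Pool.Agent.V11232.LN

/-- Acceptable numberings of the partial computable functions. -/
def Acceptable (φ : ℕ → ℕ →. ℕ) : Prop :=
  Partrec₂ φ ∧ ∀ ψ : ℕ → ℕ →. ℕ, Partrec₂ ψ →
    ∃ f : ℕ → ℕ, Computable f ∧ ∀ e x, φ (f e) x = ψ e x

/-- `W_e = dom φ_e`. -/
def W (φ : ℕ → ℕ →. ℕ) (e : ℕ) : Set ℕ := {x | (φ e x).Dom}

/-- Items of information sequences: `#`, or a number with a label. -/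
abbrev Item : Type := Option (ℕ × Bool)

/-- Information sequences: no `x` occurs with both labels. -/
def IsInfo (I : ℕ → Item) : Prop := ∀ x, ¬ ((∃ m, I m = some (x, false)) ∧ ∃ n, I n = some (x, true))

/-- The positive information. -/
def PosInfo (I : ℕ → Item) : Set ℕ := {x | ∃ n, I n = some (x, true)}

/-- The negative information. -/
def NegInfo (I : ℕ → Item) : Set ℕ := {x | ∃ n, I n = some (x, false)}

/-- The initial segment of length `n`. -/
def seg (I : ℕ → Item) (n : ℕ) : List Item := (List.range n).map I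

/-- `A =* B`. -/
def EqStar (A B : Set ℕ) : Prop := (symmDiff A B).Finite

/-- `M` `NegO^b TxtBc*`-identifies `L`. -/
def Ident (φ : ℕ → ℕ →. ℕ) (b : ℕ) (M : List Item → ℕ) (L : Set ℕ) : Prop :=
  ∃ S ⊆ Lᶜ, S.encard ≤ b ∧ ∀ I, IsInfo I → PosInfo I = L → S ⊆ NegInfo I → NegInfo I ⊆ Lᶜ →
    ∀ᶠ n in Filter.atTop, EqStar (W φ (M (seg I n))) L

end Pool.Agent.V11232.LN
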