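import Pool.Agent.V11232.LN.Comp

namespace Pool.Agent.V11232.LN

open Nat.Partrec (Code)
open Nat.Partrec.Code Filter

/-- The code `c` computes the numbering `φ`. -/
def IsCode (φ : ℕ → ℕ →. ℕ) (c : Code) : Prop := ∀ e x, eval c (Nat.pair e x) = φ e x

theorem exists_isCode (φ : ℕ → ℕ →. ℕ) (hφ : Partrec₂ φ) : ∃ c, IsCode φ c := by
  have h1 : Partrec fun n : ℕ => φ n.unpair.1 n.unpair.2 :=
    hφ.comp (Computable.fst.comp Computable.unpair) (Computable.snd.comp Computable.unpair)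
  obtain ⟨c, hc⟩ := exists_code.mp (Partrec.nat_iff.mp h1)
  exact ⟨c, fun e x => by rw [hc]; simp⟩

variable {φ : ℕ → ℕ →. ℕ} {c : Code}

theorem Wst_mem (hc : IsCode φ c) {e x s : ℕ} (h : Wst c e x s) : x ∈ W φ e := by
  unfold Wst at h
  obtain ⟨y, hy⟩ := Option.isSome_iff_exists.mp h
  have := evaln_sound (Option.mem_def.mpr hy)
  rw [hc] at this
  exact Part.dom_iff_mem.mpr ⟨y, this⟩

theorem Wst_ev (hc : IsCode φ c) {e x : ℕ} (h : x ∈ W φ e) : ∀ᶠ s in atTop, Wst c e x s := by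
  obtain ⟨y, hy⟩ := Part.dom_iff_mem.mp h
  rw [← hc] at hy
  obtain ⟨k, hk⟩ := evaln_complete.mp hy
  refine eventually_atTop.mpr ⟨k, fun s hs => ?_⟩
  exact Option.isSome_iff_exists.mpr ⟨y, evaln_mono hs hk⟩

theorem Wst_lim (hc : IsCode φ c) (e x : ℕ) : ∀ᶠ s in atTop, (Wst c e x s ↔ x ∈ W φ e) := by
  by_cases h : x ∈ W φ e
  · filter_upwards [Wst_ev hc h] with s hs
    exact ⟨fun _ => h, fun _ => hs⟩
  · exact Eventually.of_forall fun s => ⟨fun h' => Wst_mem hc h', fun h' => absurd h' h⟩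

theorem all_list {P : List ℕ} {p : ℕ → ℕ → Prop} (h : ∀ x ∈ P, ∀ᶠ s in atTop, p x s) :
    ∀ᶠ s in atTop, ∀ x ∈ P, p x s := by
  have := (eventually_all_finite (l := atTop) (p := p) (List.finite_toSet P)).mpr
    (fun x hx => h x hx)
  exact this

theorem inA_lim (hc : IsCode φ c) (P : List ℕ) (e : ℕ) :
    ∀ᶠ s in atTop, (inA c P e s ↔ ∀ p ∈ P, p ∈ W φ e) := by
  have := all_list (P := P) (p := fun p s => (Wst c e p s ↔ p ∈ W φ e))
    (fun p _ => Wst_lim hc e p)
  filter_upwards [this] with s hs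
  exact forall₂_congr hs

/-- The limit of `TT`. -/
def TL (φ : ℕ → ℕ →. ℕ) (P : List ℕ) (z : ℕ) : Set ℕ :=
  {y | ∀ e ∈ List.range (z + 1), (∀ p ∈ P, p ∈ W φ e) → y ∈ W φ e}

theorem TT_lim (hc : IsCode φ c) (P : List ℕ) (z y : ℕ) :
    ∀ᶠ s in atTop, (TT c P z s y ↔ y ∈ TL φ P z) := by
  have h1 := all_list (P := List.range (z + 1))
    (p := fun e s => (inA c P e s ↔ ∀ p ∈ P, p ∈ W φ e)) (fun e _ => inA_lim hc P e)
  have h2 := all_list (P := List.range (z + 1))
    (p := fun e s => (Wst c e y s ↔ y ∈ W φ e)) (fun e _ => Wst_lim hc e y)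
  filter_upwards [h1, h2] with s hs1 hs2
  exact forall₂_congr fun e he => by rw [hs1 e he, hs2 e he]

/-- The limit of `cons`. -/
def CL (φ : ℕ → ℕ →. ℕ) (P Q : List ℕ) (z : ℕ) : Prop := ∀ q ∈ Q, q ∉ TL φ P z

theorem cons_lim (hc : IsCode φ c) (P Q : List ℕ) (z : ℕ) :
    ∀ᶠ s in atTop, (cons c P Q z s ↔ CL φ P Q z) := by
  have h1 := all_list (P := Q) (p := fun q s => (TT c P z s q ↔ q ∈ TL φ P z))
    (fun q _ => TT_lim hc P z q)
  filter_upwards [h1] with s hs1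
  exact forall₂_congr fun q hq => not_congr (hs1 q hq)

/-- The limit of `sel`. -/
def SL (φ : ℕ → ℕ →. ℕ) (P Q : List ℕ) (z : ℕ) : Prop :=
  CL φ P Q z ∧ ∀ z' ∈ Q, z' < z → ¬ CL φ P Q z'

theorem sel_lim (hc : IsCode φ c) (P Q : List ℕ) :
    ∀ᶠ s in atTop, ∀ z ∈ Q, (sel c P Q z s ↔ SL φ P Q z) := by
  have h1 := all_list (P := Q) (p := fun z s => (cons c P Q z s ↔ CL φ P Q z))
    (fun z _ => cons_lim hc P Q z)
  filter_upwards [h1] with s hs1 z hz
  unfold sel SL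
  rw [hs1 z hz]
  refine and_congr_right fun _ => forall₂_congr fun z' hz' => ?_
  rw [hs1 z' hz']

/-- The limit of the output. -/
def OL (φ : ℕ → ℕ →. ℕ) (P Q : List ℕ) : Set ℕ := {y | ∀ z ∈ Q, SL φ P Q z → y ∈ TL φ P z}

theorem out_lim (hc : IsCode φ c) (P Q : List ℕ) : EqStar (Out c P Q) (OL φ P Q) := by
  -- a stage after which everything but the membership of `y` is stable
  have h1 := sel_lim hc P Q
  have h2 : ∀ᶠ s in atTop, ∀ z ∈ Q, ∀ e ∈ List.range (z + 1),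
      (inA c P e s ↔ ∀ p ∈ P, p ∈ W φ e) :=
    all_list (P := Q) (p := fun z s => ∀ e ∈ List.range (z + 1),
      (inA c P e s ↔ ∀ p ∈ P, p ∈ W φ e))
      (fun z _ => all_list (p := fun e s => (inA c P e s ↔ ∀ p ∈ P, p ∈ W φ e))
        (fun e _ => inA_lim hc P e))
  obtain ⟨s0, hs0⟩ := eventually_atTop.mp (h1.and h2)
  have hsub : OL φ P Q ⊆ Out c P Q := by
    intro y hy
    have h3 := all_list (P := Q) (p := fun z s => (TT c P z s y ↔ y ∈ TL φ P z))
      (fun z _ => TT_lim hc P z y)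
    obtain ⟨s, hs⟩ := (((h1.and h3).and (eventually_gt_atTop y))).exists
    refine ⟨s, hs.2, fun z hz hsel => ?_⟩
    exact (hs.1.2 z hz).mpr (hy z hz ((hs.1.1 z hz).mp hsel))
  have hfin : Out c P Q \ OL φ P Q ⊆ Set.Iio s0 := by
    rintro y ⟨⟨s, hys, hV⟩, hno⟩
    by_contra hcon
    apply hno
    have hy : s0 ≤ y := by simpa using hcon
    obtain ⟨g1, g2⟩ := hs0 s (by omega)
    intro z hz hSL e he hP
    exact Wst_mem hc (hV z hz ((g1 z hz).mpr hSL) e he ((g2 z hz e he).mpr hP))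
  have : symmDiff (Out c P Q) (OL φ P Q) = Out c P Q \ OL φ P Q := by
    rw [Set.symmDiff_def]
    have : OL φ P Q \ Out c P Q = ∅ := Set.sdiff_eq_empty.mpr hsub
    rw [this, Set.union_empty]
  unfold EqStar
  rw [this]
  exact (Set.finite_Iio s0).subset hfin

theorem mem_pos {I : ℕ → Item} {n x : ℕ} : x ∈ pos (seg I n) ↔ ∃ m < n, I m = some (x, true) := by
  simp only [pos, seg, List.mem_filterMap, List.mem_map, List.mem_range]
  constructor
  · rintro ⟨o, ⟨m, hm, rfl⟩, ho⟩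
    refine ⟨m, hm, ?_⟩
    cases hI : I m with
    | none => rw [hI] at ho; simp at ho
    | some p =>
      obtain ⟨a, b⟩ := p
      rw [hI] at ho
      cases b <;> simp at ho
      rw [ho]
  · rintro ⟨m, hm, hI⟩
    exact ⟨I m, ⟨m, hm, rfl⟩, by rw [hI]; simp⟩

theorem mem_neg {I : ℕ → Item} {n x : ℕ} : x ∈ neg (seg I n) ↔ ∃ m < n, I m = some (x, false) := by
  simp only [neg, seg, List.mem_filterMap, List.mem_map, List.mem_range]
  constructor
  · rintro ⟨o, ⟨m, hm, rfl⟩, ho⟩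
    refine ⟨m, hm, ?_⟩
    cases hI : I m with
    | none => rw [hI] at ho; simp at ho
    | some p =>
      obtain ⟨a, b⟩ := p
      rw [hI] at ho
      cases b <;> simp at ho
      rw [ho]
  · rintro ⟨m, hm, hI⟩
    exact ⟨I m, ⟨m, hm, rfl⟩, by rw [hI]; simp⟩

/-- The intersection of the first supersets of `L`. -/
def TS (φ : ℕ → ℕ →. ℕ) (L : Set ℕ) (z : ℕ) : Set ℕ :=
  {y | ∀ e ∈ List.range (z + 1), L ⊆ W φ e → y ∈ W φ e}

theorem TS_sup (L : Set ℕ) (z : ℕ) : L ⊆ TS φ L z := fun _ hy _ _ h => h hy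

theorem TS_anti (L : Set ℕ) {z z' : ℕ} (h : z ≤ z') : TS φ L z' ⊆ TS φ L z := by
  intro y hy e he
  exact hy e (by simp only [List.mem_range] at he ⊢; omega)

/-- For large `n`, the finite data decide inclusion in the first sets. -/
theorem stab (L : Set ℕ) (I : ℕ → Item) (hI : PosInfo I = L) (b : ℕ) :
    ∀ᶠ n in atTop, ∀ z ≤ b, TL φ (pos (seg I n)) z = TS φ L z := by
  have h1 : ∀ e, ∀ᶠ n in atTop, ((∀ p ∈ pos (seg I n), p ∈ W φ e) ↔ L ⊆ W φ e) := by
    intro e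
    by_cases h : L ⊆ W φ e
    · refine Eventually.of_forall fun n => ⟨fun _ => h, fun _ p hp => h ?_⟩
      obtain ⟨m, -, hm⟩ := mem_pos.mp hp
      rw [← hI]; exact ⟨m, hm⟩
    · obtain ⟨p, hpL, hpe⟩ := Set.not_subset.mp h
      rw [← hI] at hpL
      obtain ⟨m, hm⟩ := hpL
      refine eventually_atTop.mpr ⟨m + 1, fun n hn => ⟨fun h' => ?_, fun h' => absurd h' h⟩⟩
      exact absurd (h' p (mem_pos.mpr ⟨m, by omega, hm⟩)) hpe
  have h2 := all_list (P := List.range (b + 1))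
    (p := fun e n => ((∀ p ∈ pos (seg I n), p ∈ W φ e) ↔ L ⊆ W φ e)) (fun e _ => h1 e)
  filter_upwards [h2] with n hn z hz
  ext y
  unfold TL TS
  refine forall₂_congr fun e he => ?_
  rw [hn e (by simp only [List.mem_range] at he ⊢; omega)]

theorem eqStar_of_sub {A B L : Set ℕ} (h1 : EqStar A B) (h2 : L ⊆ B) (h3 : (B \ L).Finite) :
    EqStar A L := by
  unfold EqStar at *
  refine (h1.union h3).subset ?_
  intro x hx
  rw [Set.mem_symmDiff] at hx
  by_cases hB : x ∈ B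
  · rcases hx with ⟨hA, hL⟩ | ⟨hL, hA⟩
    · exact Or.inr ⟨hB, hL⟩
    · exact Or.inl (Set.mem_symmDiff.mpr (Or.inr ⟨hB, hA⟩))
  · rcases hx with ⟨hA, hL⟩ | ⟨hL, hA⟩
    · exact Or.inl (Set.mem_symmDiff.mpr (Or.inl ⟨hA, hB⟩))
    · exact absurd (h2 hL) hB

/-- The main theorem. -/
theorem main (φ : ℕ → ℕ →. ℕ) (hφ : Acceptable φ) :
    ∃ M : List Item → ℕ, Computable M ∧ ∀ L : Set ℕ, REPred (· ∈ L) → Ident φ 1 M L := by
  obtain ⟨c, hc⟩ := exists_isCode φ hφ.1
  obtain ⟨M, hM, hW⟩ := exists_learner φ hφ c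
  refine ⟨M, hM, fun L hL => ?_⟩
  -- an index of `L`
  obtain ⟨e0, he0⟩ : ∃ e0, W φ e0 = L := by
    have h1 : Partrec₂ fun (_ y : ℕ) => (Part.assert (y ∈ L) fun _ => Part.some ()).map
        fun _ => 0 := by
      refine Partrec.map (hL.comp Computable.snd) ?_
      exact (Computable.const 0).to₂
    obtain ⟨f, -, hf⟩ := hφ.2 _ h1
    refine ⟨f 0, ?_⟩
    ext y
    change (φ (f 0) y).Dom ↔ _
    rw [hf]
    exact ⟨fun ⟨h, _⟩ => h, fun h => ⟨h, trivial⟩⟩
  -- the limit output suffices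
  have key : ∀ σ, L ⊆ OL φ (pos σ) (neg σ) → (OL φ (pos σ) (neg σ) \ L).Finite →
      EqStar (W φ (M σ)) L := by
    intro σ h1 h2
    rw [hW]
    exact eqStar_of_sub (out_lim hc _ _) h1 h2
  by_cases hfin : Lᶜ.Finite
  · -- cofinite languages
    refine ⟨∅, Set.empty_subset _, by simp, fun I hI1 hI2 _ hI4 => ?_⟩
    obtain ⟨b, hb⟩ := hfin.bddAbove
    filter_upwards [stab (φ := φ) L I hI2 b] with n hn
    apply key
    · intro y hy z hz _
      have hzb : z ≤ b := by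
        obtain ⟨m, -, hm⟩ := mem_neg.mp hz
        exact hb (hI4 ⟨m, hm⟩)
      rw [hn z hzb]
      exact TS_sup L z hy
    · exact hfin.subset fun y hy => hy.2
  · -- co-infinite languages
    classical
    have hex : ∃ z, (TS φ L z \ L).Finite := by
      refine ⟨e0, ?_⟩
      have : TS φ L e0 ⊆ L := by
        intro y hy
        have := hy e0 (by simp) (by rw [he0])
        rwa [he0] at this
      rw [Set.sdiff_eq_empty.mpr this]
      exact Set.finite_empty
    let zs := Nat.find hex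
    have hzs : (TS φ L zs \ L).Finite := Nat.find_spec hex
    obtain ⟨x, hxL, hxe, hxz, hxT⟩ : ∃ x, x ∉ L ∧ e0 ≤ x ∧ zs ≤ x ∧ ∀ z < zs, x ∈ TS φ L z := by
      by_cases h0 : zs = 0
      · obtain ⟨x, hx1, hx2⟩ := (show Set.Infinite Lᶜ from hfin).exists_gt e0
        refine ⟨x, hx1, le_of_lt hx2, by omega, fun z hz => by omega⟩
      · have h1 : ¬ (TS φ L (zs - 1) \ L).Finite := Nat.find_min hex (by omega)
        obtain ⟨x, hx1, hx2⟩ := (show Set.Infinite _ from h1).exists_gt (max e0 zs)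
        refine ⟨x, hx1.2, by omega, by omega, fun z hz => ?_⟩
        exact TS_anti L (by omega) hx1.1
    refine ⟨{x}, by simpa using hxL, by simp, fun I hI1 hI2 hI3 hI4 => ?_⟩
    obtain ⟨m, hm⟩ := hI3 (Set.mem_singleton x)
    filter_upwards [stab (φ := φ) L I hI2 x, eventually_gt_atTop m] with n hn hmn
    set P := pos (seg I n) with hP
    set Q := neg (seg I n) with hQ
    have hxQ : x ∈ Q := mem_neg.mpr ⟨m, hmn, hm⟩
    have hQL : ∀ q ∈ Q, q ∉ L := by
      intro q hq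
      obtain ⟨k, -, hk⟩ := mem_neg.mp hq
      exact hI4 ⟨k, hk⟩
    have hTx : TS φ L x ⊆ L := by
      intro y hy
      have := hy e0 (by simp only [List.mem_range]; omega) (by rw [he0])
      rwa [he0] at this
    -- `x` is consistent
    have hCx : CL φ P Q x := by
      intro q hq hqT
      rw [hn x le_rfl] at hqT
      exact hQL q hq (hTx hqT)
    -- the least consistent element
    have hex2 : ∃ z, z ∈ Q ∧ CL φ P Q z := ⟨x, hxQ, hCx⟩
    let mz := Nat.find hex2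
    have hmz : mz ∈ Q ∧ CL φ P Q mz := Nat.find_spec hex2
    have hmzx : mz ≤ x := Nat.find_min' hex2 ⟨hxQ, hCx⟩
    have hmin : ∀ z' ∈ Q, z' < mz → ¬ CL φ P Q z' := fun z' hz' hlt hC =>
      Nat.find_min hex2 hlt ⟨hz', hC⟩
    have hzsm : zs ≤ mz := by
      by_contra hcon
      have h1 := hmz.2 x hxQ
      rw [hn mz hmzx] at h1
      exact h1 (hxT mz (by omega))
    have hOL : OL φ P Q = TS φ L mz := by
      ext y
      constructor
      · intro hy
        have := hy mz hmz.1 ⟨hmz.2, hmin⟩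
        rwa [hn mz hmzx] at this
      · intro hy z hz hSL
        have hzm : z = mz := by
          rcases lt_trichotomy z mz with h | h | h
          · exact absurd hSL.1 (hmin z hz h)
          · exact h
          · exact absurd hmz.2 (hSL.2 mz hmz.1 h)
        rw [hzm, hn mz hmzx]
        exact hy
    apply key
    · rw [← hP, ← hQ, hOL]; exact TS_sup L mz
    · rw [← hP, ← hQ, hOL]
      exact hzs.subset fun y hy => ⟨TS_anti L hzsm hy.1, hy.2⟩

end Pool.Agent.V11232.LN
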